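import Pool.Agent.N785.PC.Final

/-!
# The asymptotic number of prime circles

`N m` is the number of prime circles of order `2m`, that is, of the cyclic arrangements of the integers
`1, 2, ..., 2m`, counted up to rotation and reflection, in which any two neighbours have a prime sum.
We show that `log N(m) = 2m (log (2m) - log log (2m) - 1) + O(m / log m)`, in particular
`N(m) ^ (1 / (2m)) ~ 2m / (e log (2m))`, and prime circles of order `2m` exist for all large `m`.

The graph on `1, ..., 2m` in which `i` and `j` are adjacent if `i + j` is prime is bipartite, all its degrees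
are close to `2m / log (2m)`, and by the circle method there are many paths with three edges between
any two vertices of different parity. Hence the graph contains regular spanning subgraphs of
almost full degree, and the inequalities of van der Waerden and Bregman for permanents count its
2-factors with few cycles. A reservoir of `m / log ^ 4 m` edges with fixed prime sum, all of which can be
absorbed by means of two pairs of primes with the same difference, and a ternary Goldbach theorem
with primes in short windows are used to join the cycles of such a 2-factor to one Hamiltonian cycle.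
-/

set_option autoImplicit false

open Finset
open Pool.Agent.N785.PC (f_MAIN2 f_CIRU2 f_CIR NC HP Ends Od Ev)

namespace Pool.Agent.Results.MP_ec65ab_co.AsymptoticNumber

/-- `a` is a prime circle of order `2m`: a cyclic arrangement, indexed by `ZMod (2m)`, of the
integers `1, …, 2m`, each used exactly once, with prime sums of adjacent entries. -/
structure IsPrimeCircle (m : ℕ) (a : ZMod (2 * m) → ℕ) : Prop where
  bij : Set.BijOn a Set.univ (Set.Icc 1 (2 * m))
  prime : ∀ i, (a i + a (i + 1)).Prime

/-- The undirected cycle of a cyclic arrangement, that is, the set of its edges `{a i, a (i + 1)}`. -/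
def edges {m : ℕ} (a : ZMod (2 * m) → ℕ) : Set (Sym2 ℕ) :=
  Set.range fun i => s(a i, a (i + 1))

/-- The number of prime circles of order `2m`, counted as undirected cycles, that is, up to
rotation and reflection. -/
noncomputable def N (m : ℕ) : ℕ :=
  Set.ncard {E : Set (Sym2 ℕ) | ∃ a : ZMod (2 * m) → ℕ, IsPrimeCircle m a ∧ E = edges a}

/-- The sequences `a 1, ..., a (2m)`, written as lists, which contain each of the integers `1, ..., 2m`
exactly once, begin with `u`, end with `v`, and have prime sums of adjacent entries. -/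
def arrangements (m u v : ℕ) : Set (List ℕ) :=
  {l | l.Nodup ∧ (∀ x, x ∈ l ↔ 1 ≤ x ∧ x ≤ 2 * m) ∧ l.head? = some u ∧ l.getLast? = some v ∧
    l.IsChain (fun x y => (x + y).Prime)}

theorem N_eq (m : ℕ) : N m = NC m := by
  unfold N NC
  congr 1
  ext E
  constructor
  · rintro ⟨a, ha, hE⟩
    exact ⟨a, ⟨ha.bij, ha.prime⟩, hE⟩
  · rintro ⟨a, ha, hE⟩
    exact ⟨a, ⟨ha.bij, ha.prime⟩, hE⟩

/-- **The number of prime circles.** There is a constant `C` such that for all large `m` there are
prime circles of order `2m`, and `|log N(m) - 2m (log (2m) - log log (2m) - 1)| ≤ C m / log m`; moreover the number of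
linear arrangements of `1, ..., 2m` with prime sums of neighbours, with prescribed odd first term `u` and even
last term `v` outside `[m/8, 15m/8]`, is at least `exp (2m (log (2m) - log log (2m) - 1) - C m / log m)`. -/
theorem result : ∃ C : ℝ, 0 < C ∧ ∃ m₀ : ℕ, ∀ m : ℕ, m₀ ≤ m →
    1 ≤ N m ∧
    |Real.log (N m) - 2 * m * (Real.log (2 * m) - Real.log (Real.log (2 * m)) - 1)| ≤ C * m / Real.log m ∧
    ∀ u v : ℕ, 1 ≤ u → u ≤ 2 * m → Odd u → 1 ≤ v → v ≤ 2 * m → Even v →
      (8 * u < m ∨ 15 * m < 8 * u) → (8 * v < m ∨ 15 * m < 8 * v) →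
      Real.exp (2 * m * (Real.log (2 * m) - Real.log (Real.log (2 * m)) - 1) - C * m / Real.log m) ≤
        ((arrangements m u v).ncard : ℝ) := by
  obtain ⟨C1, hC1, m1, h1⟩ := f_MAIN2
  obtain ⟨C2, hC2, m2, h2⟩ := f_CIRU2
  refine ⟨max C1 C2, lt_of_lt_of_le hC1 (le_max_left _ _), max (max m1 m2) 20, fun m hm => ?_⟩
  have hm1 : m1 ≤ m := le_trans (le_trans (le_max_left _ _) (le_max_left _ _)) hm
  have hm2 : m2 ≤ m := le_trans (le_trans (le_max_right _ _) (le_max_left _ _)) hm
  have hm3 : 20 ≤ m := le_trans (le_max_right _ _) hm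
  have hlog : 0 < Real.log m := Real.log_pos (by exact_mod_cast (by omega : 1 < m))
  have hq : 0 ≤ (m : ℝ) / Real.log m := by positivity
  have hmt : Pool.Agent.N785.PC.mt (2 * m) = 2 * m * (Real.log (2 * m) - Real.log (Real.log (2 * m)) - 1) := by
    unfold Pool.Agent.N785.PC.mt
    push_cast
    ring
  have hX1 : C1 * m / Real.log m ≤ max C1 C2 * m / Real.log m := by
    rw [mul_div_assoc, mul_div_assoc]
    exact mul_le_mul_of_nonneg_right (le_max_left _ _) hq
  have hX2 : C2 * m / Real.log m ≤ max C1 C2 * m / Real.log m := by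
    rw [mul_div_assoc, mul_div_assoc]
    exact mul_le_mul_of_nonneg_right (le_max_right _ _) hq
  have key : ∀ u v : ℕ, Ends m u v →
      Real.exp (2 * m * (Real.log (2 * m) - Real.log (Real.log (2 * m)) - 1) - max C1 C2 * m / Real.log m) ≤
        ((HP m u v).ncard : ℝ) := by
    intro u v huv
    refine le_trans (Real.exp_le_exp.2 ?_) (h1 m hm1 u v huv)
    rw [hmt]
    linarith
  have hends : Ends m 1 2 := by
    refine ⟨?_, ?_, Or.inl (by omega), Or.inl (by omega)⟩
    · exact mem_filter.2 ⟨mem_Icc.2 ⟨le_rfl, by omega⟩, rfl⟩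
    · exact mem_filter.2 ⟨mem_Icc.2 ⟨by omega, by omega⟩, rfl⟩
  have hlow : Real.exp (2 * m * (Real.log (2 * m) - Real.log (Real.log (2 * m)) - 1) -
      max C1 C2 * m / Real.log m) ≤ (N m : ℝ) := by
    refine (key 1 2 hends).trans ?_
    rw [N_eq]
    exact_mod_cast f_CIR m (by omega)
  have hN1 : 0 < (N m : ℝ) := lt_of_lt_of_le (Real.exp_pos _) hlow
  have hup : (N m : ℝ) ≤ Real.exp (2 * m * (Real.log (2 * m) - Real.log (Real.log (2 * m)) - 1) +
      max C1 C2 * m / Real.log m) := by
    rw [N_eq]
    refine (h2 m hm2).trans (Real.exp_le_exp.2 ?_)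
    rw [hmt]
    linarith
  refine ⟨by exact_mod_cast hN1, ?_, ?_⟩
  · rw [abs_le]
    have e1 := Real.log_le_log (Real.exp_pos _) hlow
    have e2 := Real.log_le_log hN1 hup
    rw [Real.log_exp] at e1 e2
    constructor <;> linarith
  · intro u v hu1 hu2 hu3 hv1 hv2 hv3 hu hv
    have huv : Ends m u v := by
      refine ⟨?_, ?_, hu, hv⟩
      · exact mem_filter.2 ⟨mem_Icc.2 ⟨hu1, hu2⟩, Nat.odd_iff.1 hu3⟩
      · exact mem_filter.2 ⟨mem_Icc.2 ⟨hv1, hv2⟩, Nat.even_iff.1 hv3⟩
    exact key u v huv

end Pool.Agent.Results.MP_ec65ab_co.AsymptoticNumber
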